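import Pool.Agent.Lib.NV46.Low3
import Pool.Agent.Lib.NV46.Up3
import Pool.Agent.Lib.NV66.Pos

set_option autoImplicit false

open MeasureTheory Filter Topology Pool.Agent.Lib.MP_770ffc_an Pool.Agent.Lib.NV66

namespace Pool.Agent.Results.MP_770ffc_an.EigenRate

/-- The infimum of `μ_k(Ω₁) / μ_k(Ω₂)` over Lipschitz domains `Ω₁ ⊆ Ω₂ ⊆ ℝ^d` with `Ω₁` convex and
`|Ω₂| ≤ V |Ω₁|` is `(1 + o(1)) π² / log² V` as `V → ∞`, for every `k ≥ 1` and `d ≥ 2`. -/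
theorem result (k d : ℕ) (hk : 1 ≤ k) (hd : 2 ≤ d) :
    Tendsto (fun V : ℝ => Real.log V ^ 2 *
      sInf {r : ℝ | ∃ Ω₁ Ω₂ : Set (EuclideanSpace ℝ (Fin d)),
        IsLipschitzDomain Ω₁ ∧ IsLipschitzDomain Ω₂ ∧ Ω₁ ⊆ Ω₂ ∧ Convex ℝ Ω₁ ∧
        volume.real Ω₂ ≤ V * volume.real Ω₁ ∧ r = mu Ω₁ k / mu Ω₂ k}) atTop (𝓝 (Real.pi ^ 2)) := by
  obtain ⟨m, rfl⟩ : ∃ m, d = m + 1 := ⟨d - 1, by omega⟩
  refine tendsto_order.mpr ⟨fun a ha => ?_, fun a ha => ?_⟩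
  · obtain ⟨V₀, h⟩ := Pool.Agent.Lib.NV46.lower (d := m + 1) hk (by omega)
      (half_pos (sub_pos.mpr ha))
    filter_upwards [eventually_ge_atTop V₀, eventually_gt_atTop 1] with V hV hV1
    obtain ⟨Ω₁, Ω₂, h1, h2, h3, h4, h5, -⟩ :=
      Pool.Agent.Lib.NV46.upper (m := m) hk (by omega) one_pos hV1
    have hl : 0 < Real.log V ^ 2 := pow_pos (Real.log_pos hV1) 2
    refine lt_of_lt_of_le (b := Real.pi ^ 2 - (Real.pi ^ 2 - a) / 2) (by linarith) ?_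
    rw [← div_le_iff₀' hl]
    refine le_csInf ⟨_, Ω₁, Ω₂, h1, h2, h3, h4, h5, rfl⟩ ?_
    rintro _ ⟨Ω₁, Ω₂, h1, h2, h3, h4, h5, rfl⟩
    rw [mu_eq h1, mu_eq h2, div_le_div_iff₀ hl (mu_pos h2 hk), mul_comm (neumannEig Ω₁ k)]
    exact h V hV Ω₁ Ω₂ h1.1 h4 h1.2.1.nonempty h2.1.measurableSet h2.2.2.1 h3 h5
  · filter_upwards [eventually_gt_atTop 1] with V hV1
    obtain ⟨Ω₁, Ω₂, h1, h2, h3, h4, h5, -, h7, h8⟩ :=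
      Pool.Agent.Lib.NV46.upper (m := m) hk (by omega) (half_pos (sub_pos.mpr ha)) hV1
    refine lt_of_le_of_lt (b := Real.pi ^ 2 + (a - Real.pi ^ 2) / 2) ?_ (by linarith)
    refine (mul_le_mul_of_nonneg_left (csInf_le (a := mu Ω₁ k / mu Ω₂ k) ⟨0, ?_⟩ ?_)
      (sq_nonneg _)).trans ?_
    · rintro _ ⟨Ω₁, Ω₂, h1, h2, -, -, -, rfl⟩
      rw [mu_eq h1, mu_eq h2]
      exact div_nonneg (mu_pos h1 hk).le (mu_pos h2 hk).le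
    · exact ⟨Ω₁, Ω₂, h1, h2, h3, h4, h5, rfl⟩
    · rwa [mu_eq h1, mu_eq h2, ← mul_div_assoc, div_le_iff₀ h7]

end Pool.Agent.Results.MP_770ffc_an.EigenRate
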